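import Mathlib

set_option autoImplicit false

namespace Pool.Agent.Results.MP_cc8356_al.DerivedSeriesIndex

/-- In a finite 2-group, odd powers of an element generate the same cyclic subgroup. -/
theorem zpowers_odd_pow {G : Type} [Group G] [Finite G] (hp : IsPGroup 2 G) (x : G) (u : ℕ)
    (hu : Odd u) : Subgroup.zpowers x = Subgroup.zpowers (x ^ u) := by
  have hle : Subgroup.zpowers (x ^ u) ≤ Subgroup.zpowers x := by
    rw [Subgroup.zpowers_le]
    exact Subgroup.pow_mem _ (Subgroup.mem_zpowers x) u
  obtain ⟨k, hk⟩ := (IsPGroup.iff_orderOf.mp hp) x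
  have hcop : (orderOf x).Coprime u := by
    rw [hk]
    exact Nat.Coprime.pow_left k (Nat.coprime_two_left.mpr hu)
  have hord : orderOf (x ^ u) = orderOf x := hcop.orderOf_pow
  symm
  apply Subgroup.eq_of_le_of_card_ge hle
  rw [Nat.card_zpowers, Nat.card_zpowers, hord]

/-- The abelianisation of a normal subgroup of index at most `N` in a rational 2-group has
exponent dividing `2 ^ (N + 1)`. -/
theorem pow_eq_one {G : Type} [Group G] [Finite G] (hp : IsPGroup 2 G)
    (hrat : ∀ x y : G, Subgroup.zpowers x = Subgroup.zpowers y → IsConj x y)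
    (H : Subgroup G) (hH : H.Normal) (N : ℕ) (hN : H.index ≤ N) (a : Abelianization H) :
    a ^ (2 ^ (N + 1)) = 1 := by
  classical
  obtain ⟨x, rfl⟩ : ∃ x : H, Abelianization.of x = a := QuotientGroup.mk_surjective a
  have hpA : IsPGroup 2 (Abelianization H) :=
    (hp.to_subgroup H).of_surjective Abelianization.of QuotientGroup.mk_surjective
  obtain ⟨c, hc⟩ := (IsPGroup.iff_orderOf.mp hpA) (Abelianization.of x)
  rw [← orderOf_dvd_iff_pow_eq_one, hc]
  apply pow_dvd_pow
  rcases Nat.eq_zero_or_pos c with h0 | hpos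
  · omega
  obtain ⟨c', rfl⟩ : ∃ c', c = c' + 1 := ⟨c - 1, by omega⟩
  have hconj : ∀ i : Fin (2 ^ c'), ∃ g : G, g * (x : G) * g⁻¹ = (x : G) ^ (2 * (i : ℕ) + 1) := by
    intro i
    exact isConj_iff.mp (hrat _ _ (zpowers_odd_pow hp (x : G) _ ⟨i, rfl⟩))
  choose g hg using hconj
  have hinj : Function.Injective (fun i : Fin (2 ^ c') => (g i : G ⧸ H)) := by
    intro i j hij
    have hmem : (g i)⁻¹ * g j ∈ H := QuotientGroup.eq.mp hij
    have hk : g i * ((g i)⁻¹ * g j) * (g i)⁻¹ ∈ H := hH.conj_mem _ hmem _
    let k : H := ⟨g i * ((g i)⁻¹ * g j) * (g i)⁻¹, hk⟩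
    have hkey : x ^ (2 * (j : ℕ) + 1) = k * x ^ (2 * (i : ℕ) + 1) * k⁻¹ := by
      apply Subtype.ext
      simp only [Subgroup.coe_pow, Subgroup.coe_mul, Subgroup.coe_inv, k]
      rw [← hg i, ← hg j]
      group
    have h2 : (Abelianization.of x) ^ (2 * (j : ℕ) + 1) =
        (Abelianization.of x) ^ (2 * (i : ℕ) + 1) := by
      rw [← map_pow, ← map_pow, hkey, map_mul, map_mul, map_inv, map_pow]
      rw [mul_comm (Abelianization.of k), mul_assoc, mul_inv_cancel, mul_one]
    rw [pow_inj_mod, hc] at h2
    have hi := i.2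
    have hj := j.2
    have e : 2 ^ (c' + 1) = 2 * 2 ^ c' := by ring
    rw [Nat.mod_eq_of_lt (by omega), Nat.mod_eq_of_lt (by omega)] at h2
    apply Fin.ext
    omega
  have hcard : 2 ^ c' ≤ H.index := by
    have := Nat.card_le_card_of_injective _ hinj
    simpa [Subgroup.index] using this
  have : c' < 2 ^ c' := Nat.lt_two_pow_self
  omega

/-- For all `d` and `k` there is `N` such that in every finite rational 2-group generated by at
most `d` elements the `k`-th term of the derived series has index at most `N`. -/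
theorem result :
    ∀ d k : ℕ, ∃ N : ℕ, ∀ (G : Type) [Group G] [Finite G],
      IsPGroup 2 G →
      (∃ s : Finset G, s.card ≤ d ∧ Subgroup.closure (s : Set G) = ⊤) →
      (∀ x y : G, Subgroup.zpowers x = Subgroup.zpowers y → IsConj x y) →
      (derivedSeries G k).index ≤ N := by
  intro d k
  induction k with
  | zero =>
    refine ⟨1, ?_⟩
    intro G _ _ _ _ _
    simp
  | succ k ih =>
    obtain ⟨N, hN⟩ := ih
    refine ⟨(2 ^ (N + 1)) ^ (N * d) * N, ?_⟩
    intro G _ _ hp hs hrat
    have hidx := hN G hp hs hrat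
    obtain ⟨s, hsd, hs⟩ := hs
    set H := derivedSeries G k with hHdef
    have hnorm : H.Normal := derivedSeries_normal G k
    have hrankG : Group.rank G ≤ d := (Group.rank_le hs).trans hsd
    have hrankH : Group.rank H ≤ N * d :=
      (Subgroup.rank_le_index_mul_rank H).trans (Nat.mul_le_mul hidx hrankG)
    have hrankA : Group.rank (Abelianization H) ≤ N * d :=
      (Group.rank_le_of_surjective Abelianization.of QuotientGroup.mk_surjective).trans hrankH
    have hcardA : Nat.card (Abelianization H) ≤ (2 ^ (N + 1)) ^ (N * d) := by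
      have h1 := card_dvd_exponent_pow_rank' (Abelianization H)
        (pow_eq_one hp hrat H hnorm N hidx)
      exact (Nat.le_of_dvd (by positivity) h1).trans (Nat.pow_le_pow_right (by positivity) hrankA)
    have hKH : derivedSeries G (k + 1) ≤ H := derivedSeries_antitone G (Nat.le_succ k)
    have hsub : commutator H ≤ (derivedSeries G (k + 1)).subgroupOf H := by
      rw [Subgroup.subgroupOf, ← Subgroup.map_le_iff_le_comap, Subgroup.map_subtype_commutator]
      exact le_of_eq (derivedSeries_succ G k).symm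
    have hrel : (derivedSeries G (k + 1)).relIndex H ≤ Nat.card (Abelianization H) :=
      Nat.le_of_dvd Nat.card_pos (Subgroup.index_dvd_of_le hsub)
    rw [← Subgroup.relIndex_mul_index hKH]
    exact Nat.mul_le_mul (hrel.trans hcardA) hidx

end Pool.Agent.Results.MP_cc8356_al.DerivedSeriesIndex
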