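import Mathlib

set_option autoImplicit false

namespace Pool.Agent.Results.MP_cc8356_al.ExponentBound

/-- In a finite 2-group, odd powers of an element generate the same cyclic subgroup. -/
theorem zpowers_odd_pow {G : Type} [Group G] [Finite G] (hp : IsPGroup 2 G) (x : G) (u : ℕ)
    (hu : Odd u) : Subgroup.zpowers x = Subgroup.zpowers (x ^ u) := by
  have hle : Subgroup.zpowers (x ^ u) ≤ Subgroup.zpowers x := by
    rw [Subgroup.zpowers_le]
    exact Subgroup.pow_mem _ (Subgroup.mem_zpowers x) u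
  obtain ⟨k, hk⟩ := (IsPGroup.iff_orderOf.mp hp) x
  have hcop : (orderOf x).Coprime u := by
    rw [hk]
    exact Nat.Coprime.pow_left k (Nat.coprime_two_left.mpr hu)
  have hord : orderOf (x ^ u) = orderOf x := hcop.orderOf_pow
  symm
  apply Subgroup.eq_of_le_of_card_ge hle
  rw [Nat.card_zpowers, Nat.card_zpowers, hord]

theorem mem_of_odd_pow_mem {G : Type} [Group G] [Finite G] (hp : IsPGroup 2 G) (x : G) (u : ℕ)
    (hu : Odd u) (H : Subgroup G) (h : x ^ u ∈ H) : x ∈ H := by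
  have h1 : Subgroup.zpowers (x ^ u) ≤ H := by
    rw [Subgroup.zpowers_le]; exact h
  rw [← zpowers_odd_pow hp x u hu] at h1
  exact h1 (Subgroup.mem_zpowers x)

theorem five_pow (e : ℕ) : ∃ c : ℕ, Odd c ∧ 5 ^ (2 ^ e) = 2 ^ (e + 2) * c + 1 := by
  induction e with
  | zero => exact ⟨1, odd_one, by norm_num⟩
  | succ e ih =>
    obtain ⟨c, hc, h⟩ := ih
    refine ⟨c + 2 * (2 ^ e * c ^ 2), ?_, ?_⟩
    · exact hc.add_even (even_two_mul _)
    · rw [pow_succ 2 e, pow_mul, h]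
      ring

theorem conj_pow_pow {G : Type} [Group G] (g x : G) (h : g * x * g⁻¹ = x ^ 5) (n m : ℕ) :
    g ^ n * x ^ m * (g ^ n)⁻¹ = x ^ (5 ^ n * m) := by
  induction n with
  | zero => simp
  | succ n ih =>
    have h1 : g * x ^ (5 ^ n * m) * g⁻¹ = (x ^ 5) ^ (5 ^ n * m) := by
      rw [← h, conj_pow]
    calc g ^ (n + 1) * x ^ m * (g ^ (n + 1))⁻¹ = g * (g ^ n * x ^ m * (g ^ n)⁻¹) * g⁻¹ := by
          rw [pow_succ' g n]; group
      _ = g * x ^ (5 ^ n * m) * g⁻¹ := by rw [ih]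
      _ = (x ^ 5) ^ (5 ^ n * m) := h1
      _ = x ^ (5 ^ (n + 1) * m) := by rw [← pow_mul]; congr 1; ring

/-- In a finite rational 2-group `G`, `x ^ (2 ^ (3 * 2 ^ k - 2))` lies in the `(k+1)`-st term of
the derived series, for all `x` and `k`. -/
theorem result :
    ∀ (G : Type) [Group G] [Finite G],
      IsPGroup 2 G →
      (∀ x y : G, Subgroup.zpowers x = Subgroup.zpowers y → IsConj x y) →
      ∀ (k : ℕ) (x : G), x ^ (2 ^ (3 * 2 ^ k - 2)) ∈ derivedSeries G (k + 1) := by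
  intro G _ _ hp hrat k
  induction k with
  | zero =>
    intro x
    obtain ⟨g, hg⟩ := isConj_iff.mp (hrat x x⁻¹ (Subgroup.zpowers_inv (g := x)).symm)
    have h1 : g * x * g⁻¹ * x⁻¹ ∈ derivedSeries G (0 + 1) := by
      rw [derivedSeries_succ]
      exact Subgroup.commutator_mem_commutator (Subgroup.mem_top g) (Subgroup.mem_top x)
    rw [hg] at h1
    have h2 := inv_mem h1
    simpa [pow_two] using h2
  | succ k ih =>
    intro x
    obtain ⟨g, hg⟩ := isConj_iff.mp (hrat x (x ^ 5) (zpowers_odd_pow hp x 5 ⟨2, by norm_num⟩))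
    set e := 3 * 2 ^ k - 2 with he
    have hpos : 1 ≤ 2 ^ k := Nat.one_le_two_pow
    have he2 : 3 * 2 ^ (k + 1) - 2 = 2 * e + 2 := by
      rw [pow_succ]; omega
    rw [he2]
    obtain ⟨c, hc, h5⟩ := five_pow e
    have h1 : g ^ (2 ^ e) * x ^ (2 ^ e) * (g ^ (2 ^ e))⁻¹ * (x ^ (2 ^ e))⁻¹ ∈
        derivedSeries G (k + 1 + 1) := by
      rw [derivedSeries_succ]
      exact Subgroup.commutator_mem_commutator (ih g) (ih x)
    rw [conj_pow_pow g x hg] at h1
    have h2 : x ^ (5 ^ 2 ^ e * 2 ^ e) * (x ^ (2 ^ e))⁻¹ = (x ^ (2 ^ (2 * e + 2))) ^ c := by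
      rw [h5, mul_inv_eq_iff_eq_mul, ← pow_mul, ← pow_add]
      congr 1
      ring
    rw [h2] at h1
    exact mem_of_odd_pow_mem hp _ c hc _ h1

end Pool.Agent.Results.MP_cc8356_al.ExponentBound
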